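import Pool.Agent.TH867.SR.Cell

/-! Points of projective space over the rationals and linear forms in general position: constants,
heights, determinants (helper867). -/

set_option autoImplicit false

namespace Pool.Agent.TH867.HP

open Finset

variable {m q : ℕ}

/-- the value of a linear form -/
def ev (L : Fin q → Fin (m + 1) → ℤ) (x : Fin (m + 1) → ℤ) (i : Fin q) : ℤ := ∑ j, L i j * x j

/-- the absolute value of a value -/
def va (L : Fin q → Fin (m + 1) → ℤ) (x : Fin (m + 1) → ℤ) (i : Fin q) : ℕ := (ev L x i).natAbs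

/-- the matrix of the chosen forms -/
def mt (L : Fin q → Fin (m + 1) → ℤ) (s : Fin (m + 1) → Fin q) :
    Matrix (Fin (m + 1)) (Fin (m + 1)) ℤ := Matrix.of fun a b => L (s a) b

/-- general position -/
def Gp (L : Fin q → Fin (m + 1) → ℤ) : Prop :=
  ∀ s : Fin (m + 1) → Fin q, Function.Injective s → (mt L s).det ≠ 0

/-- the product of the determinants of the chosen forms -/
noncomputable def Dl (L : Fin q → Fin (m + 1) → ℤ) : ℕ :=
  ∏ s : Fin (m + 1) → Fin q, if (mt L s).det = 0 then 1 else (mt L s).det.natAbs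

/-- a bound for the coefficients -/
def K2 (L : Fin q → Fin (m + 1) → ℤ) : ℕ := 1 + ∑ i, ∑ j, (L i j).natAbs

/-- a bound for the adjugates -/
noncomputable def K1 (L : Fin q → Fin (m + 1) → ℤ) : ℕ :=
  1 + ∑ s : Fin (m + 1) → Fin q, ∑ j, ∑ a, ((mt L s).adjugate j a).natAbs

/-- the height -/
def ht (x : Fin (m + 1) → ℤ) : ℕ := Finset.univ.sup fun j => (x j).natAbs

/-- primitive, no form vanishes -/
structure Pt (L : Fin q → Fin (m + 1) → ℤ) (x : Fin (m + 1) → ℤ) : Prop where
  prim : ∀ p : ℕ, p.Prime → ¬ ∀ j, (p : ℤ) ∣ x j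
  ne : ∀ i, ev L x i ≠ 0

theorem Dl_pos (L : Fin q → Fin (m + 1) → ℤ) : 0 < Dl L := by
  refine Finset.prod_pos fun s _ => ?_
  by_cases h : (mt L s).det = 0
  · rw [if_pos h]; exact Nat.one_pos
  · rw [if_neg h]; exact Int.natAbs_pos.2 h

theorem det_dvd (L : Fin q → Fin (m + 1) → ℤ) {s : Fin (m + 1) → Fin q}
    (h : (mt L s).det ≠ 0) : (mt L s).det.natAbs ∣ Dl L := by
  have := Finset.dvd_prod_of_mem (fun s : Fin (m + 1) → Fin q =>
    if (mt L s).det = 0 then 1 else (mt L s).det.natAbs) (Finset.mem_univ s)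
  rwa [if_neg h] at this

theorem K1_pos (L : Fin q → Fin (m + 1) → ℤ) : 0 < K1 L := by unfold K1; omega

theorem K2_pos (L : Fin q → Fin (m + 1) → ℤ) : 0 < K2 L := by unfold K2; omega

theorem le_ht (x : Fin (m + 1) → ℤ) (j : Fin (m + 1)) : (x j).natAbs ≤ ht x :=
  Finset.le_sup (f := fun j => (x j).natAbs) (Finset.mem_univ j)

theorem va_pos {L : Fin q → Fin (m + 1) → ℤ} {x : Fin (m + 1) → ℤ} (h : Pt L x) (i : Fin q) :
    0 < va L x i := Int.natAbs_pos.2 (h.ne i)

theorem va_le (L : Fin q → Fin (m + 1) → ℤ) (x : Fin (m + 1) → ℤ) (i : Fin q) :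
    va L x i ≤ K2 L * ht x := by
  have h1 : va L x i ≤ ∑ j, (L i j).natAbs * (x j).natAbs := by
    unfold va ev
    refine (Int.natAbs_sum_le _ _).trans (le_of_eq ?_)
    exact Finset.sum_congr rfl fun j _ => Int.natAbs_mul _ _
  have h2 : ∑ j, (L i j).natAbs * (x j).natAbs ≤ ∑ j, (L i j).natAbs * ht x :=
    Finset.sum_le_sum fun j _ => Nat.mul_le_mul_left _ (le_ht x j)
  have h3 : ∑ j, (L i j).natAbs ≤ K2 L := by
    have := Finset.single_le_sum (f := fun i => ∑ j, (L i j).natAbs)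
      (fun _ _ => Nat.zero_le _) (Finset.mem_univ i)
    have h4 : ∑ j, (L i j).natAbs ≤ ∑ i, ∑ j, (L i j).natAbs := this
    unfold K2
    omega
  rw [← Finset.sum_mul] at h2
  exact h1.trans (h2.trans (Nat.mul_le_mul_right _ h3))

/-- the values of the chosen forms -/
theorem mulVec_eq (L : Fin q → Fin (m + 1) → ℤ) (s : Fin (m + 1) → Fin q)
    (x : Fin (m + 1) → ℤ) : (mt L s).mulVec x = fun a => ev L x (s a) := by
  funext a
  rfl

theorem adj_eq (L : Fin q → Fin (m + 1) → ℤ) (s : Fin (m + 1) → Fin q) (x : Fin (m + 1) → ℤ)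
    (j : Fin (m + 1)) : (mt L s).det * x j = ∑ a, (mt L s).adjugate j a * ev L x (s a) := by
  have h1 : (mt L s).adjugate.mulVec ((mt L s).mulVec x) = (mt L s).det • x := by
    rw [Matrix.mulVec_mulVec, Matrix.adjugate_mul, Matrix.smul_mulVec, Matrix.one_mulVec]
  have h2 := congrFun h1 j
  rw [mulVec_eq] at h2
  rw [Pi.smul_apply, smul_eq_mul] at h2
  rw [← h2]
  rfl

theorem ht_le {L : Fin q → Fin (m + 1) → ℤ} (hL : Gp L) {s : Fin (m + 1) → Fin q}
    (hs : Function.Injective s) (x : Fin (m + 1) → ℤ) {V : ℕ} (hV : ∀ a, va L x (s a) ≤ V) :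
    ht x ≤ K1 L * V := by
  refine Finset.sup_le fun j _ => ?_
  have hdet : 1 ≤ (mt L s).det.natAbs := Int.natAbs_pos.2 (hL s hs)
  calc (x j).natAbs ≤ (mt L s).det.natAbs * (x j).natAbs := Nat.le_mul_of_pos_left _ hdet
    _ = (∑ a, (mt L s).adjugate j a * ev L x (s a)).natAbs := by
        rw [← Int.natAbs_mul, adj_eq]
    _ ≤ ∑ a, ((mt L s).adjugate j a).natAbs * V := by
        refine (Int.natAbs_sum_le _ _).trans (Finset.sum_le_sum fun a _ => ?_)
        rw [Int.natAbs_mul]
        exact Nat.mul_le_mul_left _ (hV a)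
    _ = (∑ a, ((mt L s).adjugate j a).natAbs) * V := by rw [Finset.sum_mul]
    _ ≤ K1 L * V := by
        refine Nat.mul_le_mul_right _ ?_
        have h1 := Finset.single_le_sum (f := fun s : Fin (m + 1) → Fin q =>
          ∑ j, ∑ a, ((mt L s).adjugate j a).natAbs) (fun _ _ => Nat.zero_le _)
          (Finset.mem_univ s)
        have h2 := Finset.single_le_sum (f := fun j => ∑ a, ((mt L s).adjugate j a).natAbs)
          (fun _ _ => Nat.zero_le _) (Finset.mem_univ j)
        have h3 : ∑ a, ((mt L s).adjugate j a).natAbs ≤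
          ∑ j, ∑ a, ((mt L s).adjugate j a).natAbs := h2
        have h4 : ∑ j, ∑ a, ((mt L s).adjugate j a).natAbs ≤
          ∑ s : Fin (m + 1) → Fin q, ∑ j, ∑ a, ((mt L s).adjugate j a).natAbs := h1
        unfold K1
        omega

theorem ht_pos {L : Fin q → Fin (m + 1) → ℤ} {x : Fin (m + 1) → ℤ} (h : Pt L x) : 0 < ht x := by
  rw [Nat.pos_iff_ne_zero]
  intro h0
  refine h.prim 2 Nat.prime_two fun j => ?_
  have h1 := le_ht x j
  rw [h0, Nat.le_zero, Int.natAbs_eq_zero] at h1
  rw [h1]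
  exact dvd_zero _

/-- a common power divisor of the values of `m + 1` forms divides the constant -/
theorem pow_dvd_Dl {L : Fin q → Fin (m + 1) → ℤ} (hL : Gp L) {s : Fin (m + 1) → Fin q}
    (hs : Function.Injective s) {x : Fin (m + 1) → ℤ} (h : Pt L x) {p e : ℕ} (hp : p.Prime)
    (hd : ∀ a, p ^ e ∣ va L x (s a)) : p ^ e ∣ Dl L := by
  have h1 : ∀ j, ((p ^ e : ℕ) : ℤ) ∣ (mt L s).det * x j := by
    intro j
    rw [adj_eq]
    refine Finset.dvd_sum fun a _ => Dvd.dvd.mul_left ?_ _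
    exact Int.natCast_dvd.2 (hd a)
  have h2 := h.prim p hp
  rw [not_forall] at h2
  obtain ⟨j, hj⟩ := h2
  have h3 : IsCoprime ((p ^ e : ℕ) : ℤ) (x j) := by
    push_cast
    refine IsCoprime.pow_left ?_
    have hpi : Prime (p : ℤ) := Nat.prime_iff_prime_int.1 hp
    exact (hpi.coprime_iff_not_dvd).2 hj
  have h4 : ((p ^ e : ℕ) : ℤ) ∣ (mt L s).det := h3.dvd_of_dvd_mul_right (h1 j)
  exact (Int.natCast_dvd.1 h4).trans (det_dvd L (hL s hs))

/-- a subset with the largest values -/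
theorem top_subset {α : Type*} [LinearOrder α] (f : Fin q → α) {n : ℕ} (hn : n ≤ q) :
    ∃ s : Fin n → Fin q, Function.Injective s ∧ ∀ i, (∀ a, s a ≠ i) → ∀ a, f i ≤ f (s a) := by
  classical
  induction n with
  | zero => exact ⟨fun a => a.elim0, fun a => a.elim0, fun i _ a => a.elim0⟩
  | succ n ih =>
    obtain ⟨s, hs, ht⟩ := ih (by omega)
    -- the largest among the remaining ones
    obtain ⟨R, hR⟩ : ∃ R : Finset (Fin q), R = Finset.univ \ Finset.univ.image s := ⟨_, rfl⟩
    have hRn : R.Nonempty := by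
      rw [Finset.nonempty_iff_ne_empty]
      intro h0
      rw [hR, Finset.sdiff_eq_empty_iff_subset] at h0
      have h1 := Finset.card_le_card h0
      rw [Finset.card_univ, Fintype.card_fin] at h1
      have h2 := Finset.card_image_le (s := (Finset.univ : Finset (Fin n))) (f := s)
      rw [Finset.card_univ, Fintype.card_fin] at h2
      omega
    obtain ⟨i0, hi0, hmax⟩ := Finset.exists_max_image R f hRn
    have hi0s : ∀ a, s a ≠ i0 := by
      intro a ha
      rw [hR, Finset.mem_sdiff] at hi0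
      exact hi0.2 (Finset.mem_image.2 ⟨a, Finset.mem_univ _, ha⟩)
    refine ⟨Fin.snoc (α := fun _ => Fin q) s i0, ?_, ?_⟩
    · rw [Fin.snoc_injective_iff]
      refine ⟨hs, ?_⟩
      rintro ⟨a, ha⟩
      exact hi0s a ha
    · intro i hi
      have his : ∀ a, s a ≠ i := fun a => by
        have := hi a.castSucc
        rwa [Fin.snoc_castSucc] at this
      have hii : i0 ≠ i := by
        have := hi (Fin.last n)
        rwa [Fin.snoc_last] at this
      intro a
      refine Fin.lastCases ?_ (fun b => ?_) a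
      · rw [Fin.snoc_last]
        refine hmax i ?_
        rw [hR, Finset.mem_sdiff]
        refine ⟨Finset.mem_univ _, fun h1 => ?_⟩
        obtain ⟨b, _, hb⟩ := Finset.mem_image.1 h1
        exact his b hb
      · rw [Fin.snoc_castSucc]
        exact ht i his b

/-- the determinant of `m + 1` points -/
def dt (x : Fin (m + 1) → Fin (m + 1) → ℤ) : ℤ := (Matrix.of x).det

theorem dt_mul (L : Fin q → Fin (m + 1) → ℤ) (s : Fin (m + 1) → Fin q)
    (x : Fin (m + 1) → Fin (m + 1) → ℤ) :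
    (mt L s).det * dt x = (Matrix.of fun a b => ev L (x b) (s a)).det := by
  have h1 : (Matrix.of fun a b => ev L (x b) (s a)) = mt L s * (Matrix.of x).transpose := by
    ext a b
    rw [Matrix.mul_apply]
    rfl
  rw [h1, Matrix.det_mul, Matrix.det_transpose]
  rfl

/-- a bound for a determinant by rows -/
theorem det_rows (M : Matrix (Fin (m + 1)) (Fin (m + 1)) ℤ) (R : Fin (m + 1) → ℕ)
    (h : ∀ a b, (M a b).natAbs ≤ R a) : M.det.natAbs ≤ (m + 1).factorial * ∏ a, R a := by
  rw [Matrix.det_apply]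
  refine (Int.natAbs_sum_le _ _).trans ?_
  have h1 : ∀ σ ∈ (Finset.univ : Finset (Equiv.Perm (Fin (m + 1)))),
      (Equiv.Perm.sign σ • ∏ i, M (σ i) i).natAbs ≤ ∏ a, R a := by
    intro σ _
    have h2 : (Equiv.Perm.sign σ • ∏ i, M (σ i) i).natAbs = (∏ i, M (σ i) i).natAbs := by
      rcases Int.units_eq_one_or (Equiv.Perm.sign σ) with h3 | h3
      · rw [h3, one_smul]
      · rw [h3, Units.neg_smul, one_smul, Int.natAbs_neg]
    rw [h2]
    have h3 : (∏ i, M (σ i) i).natAbs = ∏ i, (M (σ i) i).natAbs :=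
      map_prod Int.natAbsHom _ _
    rw [h3, ← Equiv.prod_comp σ R]
    exact Finset.prod_le_prod' fun i _ => h (σ i) i
  refine (Finset.sum_le_card_nsmul _ _ _ h1).trans (le_of_eq ?_)
  rw [Finset.card_univ, Fintype.card_perm, Fintype.card_fin, smul_eq_mul]

/-- divisibility of a determinant by rows -/
theorem det_dvd_rows (M : Matrix (Fin (m + 1)) (Fin (m + 1)) ℤ) (R : Fin (m + 1) → ℤ)
    (h : ∀ a b, R a ∣ M a b) : (∏ a, R a) ∣ M.det := by
  rw [Matrix.det_apply]
  refine Finset.dvd_sum fun σ _ => ?_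
  have h1 : (∏ a, R a) ∣ ∏ i, M (σ i) i := by
    rw [← Equiv.prod_comp σ R]
    exact Finset.prod_dvd_prod_of_dvd _ _ fun i _ => h (σ i) i
  rw [Units.smul_def]
  exact Dvd.dvd.mul_left h1 _

end Pool.Agent.TH867.HP
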