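import Pool.Agent.TH867.HP.Gap
import Pool.Agent.W347.RA.CNT

/-! Cells and the hyperplanes of one scale (helper867). -/

set_option autoImplicit false

namespace Pool.Agent.TH867.HP

open Finset
open Pool.Agent.TH867.SR (sum_fac_le floor_near)

/-- few cells for nonnegative coordinates of bounded sum -/
theorem gcell {α : Type*} {ι : Type} [Fintype ι] [DecidableEq ι] (g : α → ι → ℝ) (G : Set α)
    (hg : ∀ a ∈ G, ∀ i, 0 ≤ g a i) {B u : ℝ} (hu : 0 < u) (hB : ∀ a ∈ G, ∑ i, g a i ≤ B) {N : ℕ}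
    (hN : B / u ≤ N) : ∃ f : α → Fin (2 ^ (N + Fintype.card ι)), ∀ a ∈ G, ∀ b ∈ G, f a = f b →
      ∀ i, |g a i - g b i| ≤ u := by
  classical
  have hsum : ∀ a ∈ G, ∑ i, ⌊g a i / u⌋₊ ≤ N := by
    intro a ha
    have h1 : ((∑ i, ⌊g a i / u⌋₊ : ℕ) : ℝ) ≤ N := by
      push_cast
      calc (∑ i, ((⌊g a i / u⌋₊ : ℕ) : ℝ)) ≤ ∑ i, g a i / u :=
            Finset.sum_le_sum fun i _ => Nat.floor_le (div_nonneg (hg a ha i) hu.le)
        _ = (∑ i, g a i) / u := by rw [Finset.sum_div]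
        _ ≤ B / u := div_le_div_of_nonneg_right (hB a ha) hu.le
        _ ≤ N := hN
    exact_mod_cast h1
  have hcode : ∀ a ∈ G, ∃ c : {f : ι → Fin (N + 1) // ∑ i, (f i : ℕ) ≤ N},
      ∀ i, ((c.1 i : Fin _) : ℕ) = ⌊g a i / u⌋₊ := by
    intro a ha
    have h1 : ∀ i, ⌊g a i / u⌋₊ < N + 1 := fun i => Nat.lt_succ_of_le
      ((Finset.single_le_sum (f := fun i => ⌊g a i / u⌋₊) (fun _ _ => Nat.zero_le _)
        (Finset.mem_univ i)).trans (hsum a ha))
    exact ⟨⟨fun i => ⟨_, h1 i⟩, hsum a ha⟩, fun i => rfl⟩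
  have hcard : Fintype.card {f : ι → Fin (N + 1) // ∑ i, (f i : ℕ) ≤ N} ≤
      2 ^ (N + Fintype.card ι) := by
    rw [Fintype.card_subtype]
    exact Pool.Agent.W347.RACNT.gen ι N
  obtain ⟨e⟩ : Nonempty ({f : ι → Fin (N + 1) // ∑ i, (f i : ℕ) ≤ N} ↪
      Fin (2 ^ (N + Fintype.card ι))) :=
    Function.Embedding.nonempty_of_card_le (by rw [Fintype.card_fin]; exact hcard)
  have hpos : 0 < 2 ^ (N + Fintype.card ι) := Nat.pow_pos Nat.zero_lt_two
  refine ⟨fun a => if h : a ∈ G then e (hcode a h).choose else ⟨0, hpos⟩, ?_⟩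
  intro a ha b hb hab i
  simp only [dif_pos ha, dif_pos hb] at hab
  have h2 := e.injective hab
  have h3 := (hcode a ha).choose_spec i
  have h4 := (hcode b hb).choose_spec i
  have h5 : ⌊g a i / u⌋₊ = ⌊g b i / u⌋₊ := by rw [← h3, ← h4, h2]
  have h6 := floor_near (x := g a i) (y := g b i) (u := u) (l := 1) hu
    (by rw [mul_one]; exact div_nonneg (hg a ha i) hu.le)
    (by rw [mul_one]; exact div_nonneg (hg b hb i) hu.le) (by rw [mul_one, mul_one]; exact h5)
  rwa [mul_one] at h6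

variable {m q : ℕ}

theorem log_va_le {L : Fin q → Fin (m + 1) → ℤ} {x : Fin (m + 1) → ℤ} (h : Pt L x)
    (i : Fin q) : Real.log (va L x i) ≤ Real.log (K2 L) + Real.log (ht x) := by
  have h1 : (0 : ℝ) < va L x i := by exact_mod_cast va_pos h i
  have h2 : (0 : ℝ) < K2 L := by exact_mod_cast K2_pos L
  have h3 : (0 : ℝ) < ht x := by exact_mod_cast ht_pos h
  rw [← Real.log_mul h2.ne' h3.ne']
  exact Real.log_le_log h1 (by exact_mod_cast va_le L x i)

/-- the primes of `S` carry enough -/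
def Light (L : Fin q → Fin (m + 1) → ℤ) (k : ℕ) (S : Finset ℕ) (x : Fin (m + 1) → ℤ) : Prop :=
  ∑ i, Real.log (va L x i) - ((q : ℝ) - m - 1) * Real.log (ht x) + Real.log (ht x) / k ≤
    ∑ p ∈ S, ∑ i, (fv L x i p : ℝ) * Real.log p

/-- the constant of the cells -/
def c0 (m q k : ℕ) : ℕ := 32 * (q + 1) * k * (q + m + 1) + 2 * (q + 1)

/-- the hyperplanes of one scale and one light set -/
theorem planes {L : Fin q → Fin (m + 1) → ℤ} (hL : Gp L) (hq : m + 1 ≤ q) {k : ℕ} (hk : 1 ≤ k)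
    {S : Finset ℕ} (hS : ∀ p ∈ S, p.Prime) {l : ℝ}
    (hl : 2 * k * CL L + 2 * k + Real.log (K2 L) < l) :
    ∃ V : Finset (Fin (m + 1) → ℤ), (∀ v ∈ V, v ≠ 0) ∧
      V.card ≤ 2 ^ (c0 m q k * (S.card + 1)) ∧
      ∀ x, Pt L x → l ≤ Real.log (ht x) → Real.log (ht x) ≤ 2 * l → Light L k S x →
        ∃ v ∈ V, ∑ j, v j * x j = 0 := by
  classical
  have hk0 : (0 : ℝ) < k := by exact_mod_cast hk
  have hk1 : (1 : ℝ) ≤ k := by exact_mod_cast hk
  have hCL : 0 ≤ CL L := by
    unfold CL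
    have h1 := Real.log_natCast_nonneg (Dl L)
    have h2 := Real.log_natCast_nonneg ((m + 1).factorial)
    have h3 := Real.log_natCast_nonneg (K1 L)
    positivity
  have hK2 : 0 ≤ Real.log (K2 L) := Real.log_natCast_nonneg _
  have hl0 : 0 < l := by
    have : 0 ≤ 2 * k * CL L := by positivity
    linarith
  obtain ⟨n, hn⟩ : ∃ n : ℕ, n = S.card * q + (m + 1) := ⟨_, rfl⟩
  have hn0 : (0 : ℝ) < n := by
    have : 0 < n := by omega
    exact_mod_cast this
  obtain ⟨u, hu⟩ : ∃ u : ℝ, u = l / (2 * k * n) := ⟨_, rfl⟩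
  have hu0 : 0 < u := by rw [hu]; positivity
  have hnu : (n : ℝ) * u = l / (2 * k) := by rw [hu]; field_simp
  -- the coordinates
  let g : (Fin (m + 1) → ℤ) → (S × Fin q) ⊕ Fin q → ℝ := fun x c =>
    Sum.elim (fun c : S × Fin q => (fv L x c.2 c.1 : ℝ) * Real.log (c.1 : ℕ))
      (fun i => Real.log (va L x i)) c
  let G : Set (Fin (m + 1) → ℤ) := {x | Pt L x ∧ Real.log (ht x) ≤ 2 * l}
  have hg : ∀ x ∈ G, ∀ c, 0 ≤ g x c := by
    intro x _ c
    rcases c with c | i
    · exact mul_nonneg (Nat.cast_nonneg _) (Real.log_natCast_nonneg _)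
    · exact Real.log_natCast_nonneg _
  have hB : ∀ x ∈ G, ∑ c, g x c ≤ 2 * (q : ℝ) * (3 * l) := by
    intro x hx
    rw [Fintype.sum_sum_type]
    have h1 : ∑ c : S × Fin q, g x (Sum.inl c) ≤ ∑ i, Real.log (va L x i) := by
      rw [Fintype.sum_prod_type_right]
      refine Finset.sum_le_sum fun i _ => ?_
      show ∑ p : S, (fv L x i p : ℝ) * Real.log (p : ℕ) ≤ _
      rw [Finset.sum_coe_sort S (fun p => (fv L x i p : ℝ) * Real.log p)]
      exact sum_fac_le S (va L x i)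
    have h2 : ∑ i, g x (Sum.inr i) = ∑ i, Real.log (va L x i) := rfl
    have h3 : ∑ i : Fin q, Real.log (va L x i) ≤ q * (3 * l) := by
      have : ∀ i ∈ (Finset.univ : Finset (Fin q)), Real.log (va L x i) ≤ 3 * l := by
        intro i _
        have := log_va_le hx.1 i
        have h4 := hx.2
        have h5 : 0 ≤ 2 * k * CL L := by positivity
        linarith
      refine (Finset.sum_le_card_nsmul _ _ _ this).trans (le_of_eq ?_)
      rw [Finset.card_univ, Fintype.card_fin, nsmul_eq_mul]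
    linarith
  have hN : 2 * (q : ℝ) * (3 * l) / u ≤ ((12 * q * k * n : ℕ) : ℝ) := by
    rw [hu]
    push_cast
    rw [div_div_eq_mul_div, div_le_iff₀ hl0]
    nlinarith
  obtain ⟨f, hf⟩ := gcell g G hg hu0 hB hN
  -- the hyperplane of a cell
  have hcell : ∀ c : Fin (2 ^ (12 * q * k * n + Fintype.card ((S × Fin q) ⊕ Fin q))),
      ∃ v : Fin (m + 1) → ℤ, v ≠ 0 ∧ ∀ x ∈ {x | (Pt L x ∧ l ≤ Real.log (ht x) ∧
        Real.log (ht x) ≤ 2 * l ∧ Light L k S x) ∧ f x = c}, ∑ j, v j * x j = 0 := by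
    intro c
    refine hyperplane _ fun x hx => ?_
    have hmem : ∀ b, x b ∈ G := fun b => ⟨(hx b).1.1, (hx b).1.2.2.1⟩
    have hnear : ∀ b c, |g (x 0) c - g (x b) c| ≤ u := fun b =>
      hf (x 0) (hmem 0) (x b) (hmem b) ((hx 0).2.trans (hx b).2.symm)
    refine gap hL hq (κ := Real.log (ht (x 0)) / k) hS (u := u) x (fun b => (hx b).1.1) ?_ ?_
      (hx 0).1.2.2.2 ?_
    · intro b p hp i
      have := hnear b (Sum.inl (⟨p, hp⟩, i))
      simp only [g, Sum.elim_inl] at this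
      rw [sub_mul]
      exact this
    · intro b i
      have := (abs_le.1 (hnear b (Sum.inr i))).1
      simp only [g, Sum.elim_inr] at this
      linarith
    · have h1 : ((S.card : ℝ) * q + (m + 1)) = n := by rw [hn]; push_cast; ring
      rw [h1, hnu]
      have h2 : l / k ≤ Real.log (ht (x 0)) / k := div_le_div_of_nonneg_right (hx 0).1.2.1 hk0.le
      have h3 : l / k = l / (2 * k) + l / (2 * k) := by field_simp; ring
      have h4 : CL L < l / (2 * k) := by
        rw [lt_div_iff₀ (by positivity)]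
        linarith
      linarith
  choose v hv0 hv using hcell
  refine ⟨Finset.univ.image v, ?_, ?_, ?_⟩
  · intro w hw
    obtain ⟨c, _, rfl⟩ := Finset.mem_image.1 hw
    exact hv0 c
  · refine Finset.card_image_le.trans ?_
    rw [Finset.card_univ, Fintype.card_fin]
    refine Nat.pow_le_pow_right Nat.zero_lt_two ?_
    rw [Fintype.card_sum, Fintype.card_prod, Fintype.card_coe, Fintype.card_fin, hn]
    unfold c0
    have h1 : S.card * q + (m + 1) ≤ (q + m + 1) * (S.card + 1) := by nlinarith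
    calc 12 * q * k * (S.card * q + (m + 1)) + (S.card * q + q) ≤
        12 * q * k * ((q + m + 1) * (S.card + 1)) + (S.card * q + q) := by
          exact Nat.add_le_add_right (Nat.mul_le_mul_left _ h1) _
      _ ≤ (32 * (q + 1) * k * (q + m + 1) + 2 * (q + 1)) * (S.card + 1) := by
          have e1 : 12 * q * k * ((q + m + 1) * (S.card + 1)) =
            12 * q * k * (q + m + 1) * (S.card + 1) := by ring
          have e2 : (32 * (q + 1) * k * (q + m + 1) + 2 * (q + 1)) * (S.card + 1) =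
            32 * (q + 1) * k * (q + m + 1) * (S.card + 1) + 2 * (q + 1) * (S.card + 1) := by ring
          rw [e1, e2]
          refine Nat.add_le_add (Nat.mul_le_mul_right _ (Nat.mul_le_mul_right _
            (Nat.mul_le_mul_right _ (by omega)))) ?_
          nlinarith
  · intro x hx hxl hx2 hxL
    refine ⟨v (f x), Finset.mem_image.2 ⟨f x, Finset.mem_univ _, rfl⟩, ?_⟩
    exact hv (f x) x ⟨⟨hx, hxl, hx2, hxL⟩, rfl⟩

end Pool.Agent.TH867.HP
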