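import Pool.Agent.TH867.HP.Basic

/-! The gap principle for `m + 1` points of projective space (helper867). -/

set_option autoImplicit false

namespace Pool.Agent.TH867.HP

open Finset
open Pool.Agent.TH867.SR (sum_fac_le)

variable {m q : ℕ}

/-- exponent of `p` in a value -/
def fv (L : Fin q → Fin (m + 1) → ℤ) (x : Fin (m + 1) → ℤ) (i : Fin q) (p : ℕ) : ℕ :=
  (va L x i).factorization p

/-- the constant -/
noncomputable def CL (L : Fin q → Fin (m + 1) → ℤ) : ℝ :=
  ((q : ℝ) + 1) * Real.log (Dl L) + Real.log ((m + 1).factorial : ℕ) + q * Real.log (K1 L)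

theorem sum_split {M : Type*} [AddCommMonoid M] {s : Fin (m + 1) → Fin q}
    (hs : Function.Injective s) (f : Fin q → M) :
    ∑ i, f i = ∑ a, f (s a) + ∑ i ∈ Finset.univ \ Finset.univ.image s, f i := by
  classical
  rw [← Finset.sum_sdiff (Finset.subset_univ (Finset.univ.image s)), add_comm]
  congr 1
  exact Finset.sum_image fun a _ b _ h => hs h

theorem card_compl {s : Fin (m + 1) → Fin q} (hs : Function.Injective s) :
    ((Finset.univ \ Finset.univ.image s : Finset (Fin q)).card : ℝ) = (q : ℝ) - m - 1 := by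
  classical
  have h1 := Finset.card_sdiff_add_card_eq_card (Finset.subset_univ (Finset.univ.image s))
  rw [Finset.card_image_of_injective _ hs, Finset.card_univ, Finset.card_univ, Fintype.card_fin,
    Fintype.card_fin] at h1
  have h2 : (((Finset.univ \ Finset.univ.image s : Finset (Fin q)).card + (m + 1) : ℕ) : ℝ) =
    (q : ℝ) := by exact_mod_cast h1
  push_cast at h2
  linarith

/-- the local part -/
theorem local_part {L : Fin q → Fin (m + 1) → ℤ} (hL : Gp L) (hq : m + 1 ≤ q)
    {x : Fin (m + 1) → Fin (m + 1) → ℤ} (hx : ∀ b, Pt L (x b)) (hd : dt x ≠ 0) {p : ℕ}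
    (hp : p.Prime) (e : Fin q → ℕ) (he : ∀ i b, e i ≤ fv L (x b) i p) :
    ∑ i, e i ≤ (dt x).natAbs.factorization p + (q + 1) * (Dl L).factorization p := by
  classical
  obtain ⟨s, hs, htop⟩ := top_subset e hq
  have h1 : ∀ i ∈ Finset.univ \ Finset.univ.image s, e i ≤ (Dl L).factorization p := by
    intro i hi
    have hi' : ∀ a, s a ≠ i := by
      intro a ha
      rw [Finset.mem_sdiff] at hi
      exact hi.2 (Finset.mem_image.2 ⟨a, Finset.mem_univ _, ha⟩)
    have h2 : p ^ e i ∣ Dl L := by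
      refine pow_dvd_Dl hL hs (hx 0) hp fun a => ?_
      exact (pow_dvd_pow p ((htop i hi' a).trans (he (s a) 0))).trans (Nat.ordProj_dvd _ _)
    exact (hp.pow_dvd_iff_le_factorization (Dl_pos L).ne').1 h2
  have h2 : ∑ i ∈ Finset.univ \ Finset.univ.image s, e i ≤ q * (Dl L).factorization p := by
    refine (Finset.sum_le_card_nsmul _ _ _ h1).trans ?_
    rw [smul_eq_mul]
    refine Nat.mul_le_mul_right _ ?_
    have := Finset.card_le_univ (Finset.univ \ Finset.univ.image s : Finset (Fin q))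
    rwa [Fintype.card_fin] at this
  have h3 : (∏ a, ((p : ℤ) ^ e (s a))) ∣ (mt L s).det * dt x := by
    rw [dt_mul]
    refine det_dvd_rows _ _ fun a b => ?_
    have h4 : p ^ e (s a) ∣ va L (x b) (s a) :=
      (pow_dvd_pow p (he (s a) b)).trans (Nat.ordProj_dvd _ _)
    have h5 := Int.natCast_dvd.2 h4
    push_cast at h5
    exact h5
  rw [Finset.prod_pow_eq_pow_sum] at h3
  have h4 : p ^ (∑ a, e (s a)) ∣ (mt L s).det.natAbs * (dt x).natAbs := by
    rw [← Int.natAbs_mul, ← Int.natCast_dvd]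
    push_cast
    exact h3
  have hdet := hL s hs
  have h5 : ∑ a, e (s a) ≤ (mt L s).det.natAbs.factorization p + (dt x).natAbs.factorization p := by
    have h6 := (hp.pow_dvd_iff_le_factorization
      (Nat.mul_pos (Int.natAbs_pos.2 hdet) (Int.natAbs_pos.2 hd)).ne').1 h4
    rwa [Nat.factorization_mul (Int.natAbs_pos.2 hdet).ne' (Int.natAbs_pos.2 hd).ne',
      Finsupp.add_apply] at h6
  have h6 : (mt L s).det.natAbs.factorization p ≤ (Dl L).factorization p :=
    (Nat.factorization_le_iff_dvd (Int.natAbs_pos.2 hdet).ne' (Dl_pos L).ne').2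
      (det_dvd L hdet) p
  rw [sum_split hs]
  have h7 : (q + 1) * (Dl L).factorization p =
    q * (Dl L).factorization p + (Dl L).factorization p := by ring
  omega

/-- the archimedean part -/
theorem arch_part {L : Fin q → Fin (m + 1) → ℤ} (hL : Gp L) (hq : m + 1 ≤ q)
    {x : Fin (m + 1) → Fin (m + 1) → ℤ} (hx : ∀ b, Pt L (x b)) (hd : dt x ≠ 0) {u : ℝ}
    (hu : ∀ b i, Real.log (va L (x b) i) ≤ Real.log (va L (x 0) i) + u) :
    Real.log ((dt x).natAbs : ℕ) ≤ Real.log ((m + 1).factorial : ℕ) + (m + 1) * u +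
      ∑ i, Real.log (va L (x 0) i) -
      ((q : ℝ) - m - 1) * (Real.log (ht (x 0)) - Real.log (K1 L)) := by
  classical
  obtain ⟨s, hs, htop⟩ := top_subset (fun i => -(va L (x 0) i : ℤ)) hq
  have h1 : ∀ i ∈ Finset.univ \ Finset.univ.image s,
      Real.log (ht (x 0)) - Real.log (K1 L) ≤ Real.log (va L (x 0) i) := by
    intro i hi
    have hi' : ∀ a, s a ≠ i := by
      intro a ha
      rw [Finset.mem_sdiff] at hi
      exact hi.2 (Finset.mem_image.2 ⟨a, Finset.mem_univ _, ha⟩)
    have h2 := ht_le hL hs (x 0) (V := va L (x 0) i) (fun a => by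
      have := htop i hi' a
      simp only [neg_le_neg_iff] at this
      exact_mod_cast this)
    have k0 : (0 : ℝ) < K1 L := by exact_mod_cast K1_pos L
    have k1 : (0 : ℝ) < va L (x 0) i := by exact_mod_cast va_pos (hx 0) i
    have k2 : (0 : ℝ) < ht (x 0) := by exact_mod_cast ht_pos (hx 0)
    have h3 : Real.log (ht (x 0)) ≤ Real.log ((K1 L : ℝ) * va L (x 0) i) :=
      Real.log_le_log k2 (by exact_mod_cast h2)
    rw [Real.log_mul k0.ne' k1.ne'] at h3
    linarith
  have h2 : ((q : ℝ) - m - 1) * (Real.log (ht (x 0)) - Real.log (K1 L)) ≤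
      ∑ i ∈ Finset.univ \ Finset.univ.image s, Real.log (va L (x 0) i) := by
    have := Finset.card_nsmul_le_sum _ _ _ h1
    rwa [nsmul_eq_mul, card_compl hs] at this
  obtain ⟨R, hR⟩ : ∃ R : Fin (m + 1) → ℕ, ∀ a, (∀ b, va L (x b) (s a) ≤ R a) ∧
      ∃ b, R a = va L (x b) (s a) := by
    have : ∀ a : Fin (m + 1), ∃ r : ℕ, (∀ b, va L (x b) (s a) ≤ r) ∧
        ∃ b, r = va L (x b) (s a) := by
      intro a
      obtain ⟨b, -, hb⟩ := Finset.exists_max_image (Finset.univ : Finset (Fin (m + 1)))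
        (fun b => va L (x b) (s a)) ⟨0, Finset.mem_univ _⟩
      exact ⟨va L (x b) (s a), fun c => hb c (Finset.mem_univ _), b, rfl⟩
    choose R hR using this
    exact ⟨R, hR⟩
  have h3 : (dt x).natAbs ≤ (m + 1).factorial * ∏ a, R a := by
    have h4 := det_rows (Matrix.of fun a b => ev L (x b) (s a)) R (fun a b => (hR a).1 b)
    rw [← dt_mul, Int.natAbs_mul] at h4
    have h5 : 1 ≤ (mt L s).det.natAbs := Int.natAbs_pos.2 (hL s hs)
    exact (Nat.le_mul_of_pos_left _ h5).trans h4
  have hRpos : ∀ a, (0 : ℝ) < R a := by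
    intro a
    obtain ⟨b, hb⟩ := (hR a).2
    rw [hb]
    exact_mod_cast va_pos (hx b) (s a)
  have hfac : (0 : ℝ) < ((m + 1).factorial : ℕ) := by exact_mod_cast Nat.factorial_pos _
  have h4 : Real.log ((dt x).natAbs : ℕ) ≤ Real.log ((m + 1).factorial : ℕ) +
      ∑ a, Real.log (R a) := by
    have h5 : ((dt x).natAbs : ℝ) ≤ ((m + 1).factorial : ℕ) * ∏ a, (R a : ℝ) := by
      exact_mod_cast h3
    have h6 := Real.log_le_log (by exact_mod_cast Int.natAbs_pos.2 hd) h5
    rw [Real.log_mul hfac.ne' (Finset.prod_pos fun a _ => hRpos a).ne',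
      Real.log_prod (fun a _ => (hRpos a).ne')] at h6
    exact h6
  have h5 : ∑ a, Real.log (R a) ≤ ∑ a, Real.log (va L (x 0) (s a)) + (m + 1) * u := by
    have h6 : ∀ a ∈ (Finset.univ : Finset (Fin (m + 1))), Real.log (R a) ≤
        Real.log (va L (x 0) (s a)) + u := by
      intro a _
      obtain ⟨b, hb⟩ := (hR a).2
      rw [hb]
      exact hu b (s a)
    refine (Finset.sum_le_sum h6).trans (le_of_eq ?_)
    rw [Finset.sum_add_distrib, Finset.sum_const, Finset.card_univ, Fintype.card_fin,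
      nsmul_eq_mul]
    push_cast
    ring
  rw [sum_split hs]
  linarith

/-- **the gap principle** -/
theorem gap {L : Fin q → Fin (m + 1) → ℤ} (hL : Gp L) (hq : m + 1 ≤ q) {κ : ℝ} {S : Finset ℕ}
    (hS : ∀ p ∈ S, p.Prime) {u : ℝ} (x : Fin (m + 1) → Fin (m + 1) → ℤ)
    (hx : ∀ b, Pt L (x b))
    (hp : ∀ b, ∀ p ∈ S, ∀ i, |((fv L (x 0) i p : ℝ) - fv L (x b) i p) * Real.log p| ≤ u)
    (ha : ∀ b i, Real.log (va L (x b) i) ≤ Real.log (va L (x 0) i) + u)
    (hl : ∑ i, Real.log (va L (x 0) i) - ((q : ℝ) - m - 1) * Real.log (ht (x 0)) + κ ≤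
      ∑ p ∈ S, ∑ i, (fv L (x 0) i p : ℝ) * Real.log p)
    (hs : ((S.card : ℝ) * q + (m + 1)) * u + CL L < κ) : dt x = 0 := by
  classical
  by_contra hd
  obtain ⟨e, he⟩ : ∃ e : ℕ → Fin q → ℕ, ∀ p i, (∀ b, e p i ≤ fv L (x b) i p) ∧
      ∃ b, e p i = fv L (x b) i p := by
    have : ∀ (p : ℕ) (i : Fin q), ∃ r : ℕ, (∀ b, r ≤ fv L (x b) i p) ∧
        ∃ b, r = fv L (x b) i p := by
      intro p i
      obtain ⟨b, -, hb⟩ := Finset.exists_min_image (Finset.univ : Finset (Fin (m + 1)))
        (fun b => fv L (x b) i p) ⟨0, Finset.mem_univ _⟩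
      exact ⟨fv L (x b) i p, fun c => hb c (Finset.mem_univ _), b, rfl⟩
    choose e he using this
    exact ⟨e, he⟩
  have h1 : ∀ p ∈ S, ∑ i, (fv L (x 0) i p : ℝ) * Real.log p ≤
      ((dt x).natAbs.factorization p : ℝ) * Real.log p +
        ((q : ℝ) + 1) * (((Dl L).factorization p : ℝ) * Real.log p) + q * u := by
    intro p hpS
    have h2 := local_part hL hq hx hd (hS p hpS) (e p) (fun i b => (he p i).1 b)
    have h3 : (∑ i, (e p i : ℝ)) ≤ ((dt x).natAbs.factorization p : ℝ) +
        ((q : ℝ) + 1) * ((Dl L).factorization p : ℝ) := by exact_mod_cast h2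
    have h4 : 0 ≤ Real.log (p : ℝ) := Real.log_natCast_nonneg p
    have h5 : ∑ i, (fv L (x 0) i p : ℝ) * Real.log p ≤ ∑ i, ((e p i : ℝ) * Real.log p + u) := by
      refine Finset.sum_le_sum fun i _ => ?_
      obtain ⟨b, hb⟩ := (he p i).2
      rw [hb]
      have := (abs_le.1 (hp b p hpS i)).2
      rw [sub_mul] at this
      linarith
    rw [Finset.sum_add_distrib, Finset.sum_const, Finset.card_univ, Fintype.card_fin,
      nsmul_eq_mul] at h5
    have h6 := mul_le_mul_of_nonneg_right h3 h4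
    rw [Finset.sum_mul] at h6
    have h7 : (((dt x).natAbs.factorization p : ℝ) + ((q : ℝ) + 1) *
      ((Dl L).factorization p : ℝ)) * Real.log p = ((dt x).natAbs.factorization p : ℝ) *
      Real.log p + ((q : ℝ) + 1) * (((Dl L).factorization p : ℝ) * Real.log p) := by ring
    linarith
  have h2 := Finset.sum_le_sum h1
  rw [Finset.sum_add_distrib, Finset.sum_add_distrib, Finset.sum_const, nsmul_eq_mul,
    ← Finset.mul_sum] at h2
  have h3 := sum_fac_le S (dt x).natAbs
  have h4 := sum_fac_le S (Dl L)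
  have h5 := arch_part hL hq hx hd ha
  have hK : 0 ≤ Real.log (K1 L) := Real.log_natCast_nonneg _
  have hD : 0 ≤ Real.log (Dl L) := Real.log_natCast_nonneg _
  have h6 : ((q : ℝ) + 1) * ∑ p ∈ S, ((Dl L).factorization p : ℝ) * Real.log p ≤
      ((q : ℝ) + 1) * Real.log (Dl L) := mul_le_mul_of_nonneg_left h4 (by positivity)
  have h7 : ((q : ℝ) - m - 1) * Real.log (K1 L) ≤ q * Real.log (K1 L) :=
    mul_le_mul_of_nonneg_right (by
      have : (0 : ℝ) ≤ m := Nat.cast_nonneg _
      linarith) hK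
  have h8 : ((q : ℝ) - m - 1) * (Real.log (ht (x 0)) - Real.log (K1 L)) =
    ((q : ℝ) - m - 1) * Real.log (ht (x 0)) - ((q : ℝ) - m - 1) * Real.log (K1 L) := by ring
  have h9 : ((S.card : ℝ) * q + (m + 1)) * u = (S.card : ℝ) * (q * u) + (m + 1) * u := by ring
  rw [h8] at h5
  rw [h9] at hs
  unfold CL at hs
  linarith

/-- points any `m + 1` of which have determinant zero lie in a hyperplane -/
theorem hyperplane (G : Set (Fin (m + 1) → ℤ))
    (hG : ∀ x : Fin (m + 1) → Fin (m + 1) → ℤ, (∀ b, x b ∈ G) → dt x = 0) :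
    ∃ v : Fin (m + 1) → ℤ, v ≠ 0 ∧ ∀ x ∈ G, ∑ j, v j * x j = 0 := by
  classical
  let c : (Fin (m + 1) → ℤ) → (Fin (m + 1) → ℚ) := fun x j => (x j : ℚ)
  obtain ⟨b, hbs, hspan, hlin⟩ := exists_linearIndependent ℚ (c '' G)
  have hne : Submodule.span ℚ (c '' G) ≠ ⊤ := by
    intro htop
    rw [← hspan] at htop
    have hfin : b.Finite := hlin.setFinite
    have := hfin.fintype
    let B := Module.Basis.mk hlin (by rw [Subtype.range_coe, htop])
    have hcard : Fintype.card b = m + 1 := by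
      have h1 := Module.finrank_eq_card_basis B
      rw [Module.finrank_fin_fun] at h1
      exact h1.symm
    obtain ⟨eq⟩ : Nonempty (Fin (m + 1) ≃ b) :=
      ⟨(Fintype.equivFinOfCardEq hcard).symm⟩
    have hmem : ∀ a : Fin (m + 1), ∃ x ∈ G, c x = (eq a : Fin (m + 1) → ℚ) := fun a =>
      hbs (eq a).2
    choose x hxG hxc using hmem
    have h0 := hG x hxG
    have h2 : LinearIndependent ℚ (fun a => ((eq a : b) : Fin (m + 1) → ℚ)) :=
      hlin.comp eq eq.injective
    have h3 : IsUnit (Matrix.of fun a => ((eq a : b) : Fin (m + 1) → ℚ)) :=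
      Matrix.linearIndependent_rows_iff_isUnit.1 h2
    rw [Matrix.isUnit_iff_isUnit_det] at h3
    apply h3.ne_zero
    have h4 : (Matrix.of fun a => ((eq a : b) : Fin (m + 1) → ℚ)) =
        (Int.castRingHom ℚ).mapMatrix (Matrix.of x) := by
      ext i j
      rw [RingHom.mapMatrix_apply, Matrix.map_apply]
      show ((eq i : b) : Fin (m + 1) → ℚ) j = ((x i j : ℤ) : ℚ)
      rw [← hxc i]
    rw [h4, ← RingHom.map_det]
    unfold dt at h0
    rw [h0, map_zero]
  obtain ⟨f, hf0, hf⟩ := Submodule.exists_le_ker_of_lt_top _ (lt_top_iff_ne_top.2 hne)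
  -- the coefficients
  let w : Fin (m + 1) → ℚ := fun j => f (Pi.single j 1)
  have hfw : ∀ y : Fin (m + 1) → ℚ, f y = ∑ j, w j * y j := by
    intro y
    conv_lhs => rw [← Finset.univ_sum_single y]
    rw [map_sum]
    refine Finset.sum_congr rfl fun j _ => ?_
    have : (Pi.single j (y j) : Fin (m + 1) → ℚ) = y j • Pi.single j 1 := by
      rw [← Pi.single_smul, smul_eq_mul, mul_one]
    rw [this, map_smul, smul_eq_mul, mul_comm]
  have hw0 : w ≠ 0 := by
    intro h0
    apply hf0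
    ext y
    have := hfw (Pi.single y 1)
    simp only [LinearMap.coe_comp, Function.comp_apply, LinearMap.coe_single, LinearMap.zero_apply]
    rw [this, h0]
    simp
  -- clearing denominators
  obtain ⟨D, hD⟩ : ∃ D : ℕ, D = ∏ j, (w j).den := ⟨_, rfl⟩
  have hDpos : 0 < D := by rw [hD]; exact Finset.prod_pos fun j _ => (w j).den_pos
  have hint : ∀ j, ∃ z : ℤ, (z : ℚ) = D * w j := by
    intro j
    have hdv : (w j).den ∣ D := by rw [hD]; exact Finset.dvd_prod_of_mem _ (Finset.mem_univ j)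
    obtain ⟨t, ht⟩ := hdv
    refine ⟨t * (w j).num, ?_⟩
    rw [ht]
    push_cast
    have : ((w j).den : ℚ) * w j = (w j).num := by
      rw [mul_comm]; exact Rat.mul_den_eq_num _
    rw [mul_comm ((w j).den : ℚ) t, mul_assoc, this]
  choose v hv using hint
  refine ⟨v, ?_, ?_⟩
  · intro h0
    apply hw0
    funext j
    have h1 := hv j
    rw [h0] at h1
    have h2 : (D : ℚ) ≠ 0 := by exact_mod_cast hDpos.ne'
    have h3 : (D : ℚ) * w j = 0 := by rw [← h1]; simp
    rcases mul_eq_zero.1 h3 with h4 | h4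
    · exact absurd h4 h2
    · exact h4
  · intro x hx
    have h1 : f (c x) = 0 := hf (Submodule.subset_span ⟨x, hx, rfl⟩)
    rw [hfw] at h1
    have h2 : ((∑ j, v j * x j : ℤ) : ℚ) = D * ∑ j, w j * c x j := by
      push_cast
      rw [Finset.mul_sum]
      refine Finset.sum_congr rfl fun j _ => ?_
      rw [hv j, mul_assoc]
    rw [h1, mul_zero] at h2
    exact_mod_cast h2

end Pool.Agent.TH867.HP
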