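import Pool.Agent.TH867.HP.Tot
import Pool.Agent.TH867.SR.Main

/-! Hyperplanes in general position: the points with small truncated counting function lie in few
hyperplanes (helper867). -/

set_option autoImplicit false

namespace Pool.Agent.TH867.HP

open Finset
open Pool.Agent.TH867.SR (greedy log_prime_nonneg log_eq_sum')

variable {m q : ℕ}

/-- the product of the values -/
def Np (L : Fin q → Fin (m + 1) → ℤ) (x : Fin (m + 1) → ℤ) : ℕ := ∏ i, va L x i

theorem Np_pos {L : Fin q → Fin (m + 1) → ℤ} {x : Fin (m + 1) → ℤ} (h : Pt L x) : 0 < Np L x :=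
  Finset.prod_pos fun i _ => va_pos h i

theorem log_va_eq {L : Fin q → Fin (m + 1) → ℤ} {x : Fin (m + 1) → ℤ} (h : Pt L x) (i : Fin q) :
    Real.log (va L x i) = ∑ p ∈ (Np L x).primeFactors, (fv L x i p : ℝ) * Real.log p := by
  rw [log_eq_sum' (va_pos h i).ne']
  refine Finset.sum_subset (Nat.primeFactors_mono (Finset.dvd_prod_of_mem _ (Finset.mem_univ i))
    (Np_pos h).ne') fun p _ hp => ?_
  rw [← Nat.support_factorization, Finsupp.notMem_support_iff] at hp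
  rw [hp]
  simp

/-- the choice of a light set -/
theorem choice (hm : 1 ≤ m) {L : Fin q → Fin (m + 1) → ℤ} {k : ℕ} (hk : 1 ≤ k) {ρ θ lX ly y : ℝ}
    {S0 : Finset ℕ} (hρ : ρ + 1 / (k : ℝ) ≤ (q : ℝ) - m - 1) (hθ : θ = ((m : ℝ) + 1) / ((q : ℝ) - ρ))
    (hkθ : θ + 1 / k ≤ 1) (hly : 0 ≤ ly) (hlX : 0 ≤ lX) (hyy : ly = min (Real.log y) lX)
    (hy : 1 ≤ y) {x : Fin (m + 1) → ℤ}
    (h : Pt L x) (hbig : (k : ℝ) * q * Real.log (K2 L) ≤ Real.log (ht x))
    (hpos : 0 < Real.log (ht x))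
    (hrad : ∑ p ∈ ((Np L x).primeFactors.filter (fun p : ℕ => (p : ℝ) ≤ y)) \ S0,
      Real.log (p : ℝ) ≤ lX)
    (hro : ∑ p ∈ (Np L x).primeFactors.filter (fun p : ℕ => ¬ (p : ℝ) ≤ y),
      ∑ i, (fv L x i p : ℝ) * Real.log p ≤ ρ * Real.log (ht x)) :
    ∃ S : Finset ℕ, (∀ p ∈ S, p.Prime) ∧ Light L k S x ∧
      ∑ p ∈ S, Real.log (p : ℝ) ≤ (θ + 1 / k) * lX + ly + ∑ p ∈ S0, Real.log (p : ℝ) := by
  classical
  have hk0 : (0 : ℝ) < k := by exact_mod_cast hk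
  have h1k : 0 < 1 / (k : ℝ) := by positivity
  have hm0 : (0 : ℝ) ≤ m := Nat.cast_nonneg _
  obtain ⟨H, hH⟩ : ∃ H, H = Real.log (ht x) := ⟨_, rfl⟩
  rw [← hH] at hbig hpos hro
  obtain ⟨A, hA⟩ : ∃ A, A = ∑ i, Real.log (va L x i) := ⟨_, rfl⟩
  obtain ⟨w, hw⟩ : ∃ w : ℕ → ℝ, w = fun p => ∑ i, (fv L x i p : ℝ) * Real.log p := ⟨_, rfl⟩
  have hw0 : ∀ p, 0 ≤ w p := fun p => by
    rw [hw]
    exact Finset.sum_nonneg fun i _ => mul_nonneg (Nat.cast_nonneg _)
      (Real.log_natCast_nonneg p)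
  have hAw : ∑ p ∈ (Np L x).primeFactors, w p = A := by
    rw [hw, hA, Finset.sum_comm]
    exact Finset.sum_congr rfl fun i _ => (log_va_eq h i).symm
  obtain ⟨Q, hQ⟩ : ∃ Q, Q = (Np L x).primeFactors.filter (fun p : ℕ => (p : ℝ) ≤ y) := ⟨_, rfl⟩
  have hQp : ∀ p ∈ Q, p.Prime := fun p hp => by
    rw [hQ] at hp
    exact Nat.prime_of_mem_primeFactors (Finset.mem_filter.1 hp).1
  obtain ⟨W, hW⟩ : ∃ W, W = ∑ p ∈ Q, w p := ⟨_, rfl⟩
  have hWA : A - ρ * H ≤ W := by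
    have h1 := Finset.sum_filter_add_sum_filter_not (Np L x).primeFactors
      (fun p : ℕ => (p : ℝ) ≤ y) w
    rw [hAw, ← hQ, ← hW] at h1
    have h2 : ∑ p ∈ (Np L x).primeFactors.filter (fun p : ℕ => ¬ (p : ℝ) ≤ y), w p ≤ ρ * H := by
      rw [hw]; exact hro
    linarith
  obtain ⟨σ, hσ⟩ : ∃ σ, σ = ∑ p ∈ S0, Real.log (p : ℝ) := ⟨_, rfl⟩
  have hσ0 : 0 ≤ σ := by rw [hσ]; exact Finset.sum_nonneg fun p _ => Real.log_natCast_nonneg p
  obtain ⟨κ, hκ⟩ : ∃ κ, κ = A - ((q : ℝ) - m - 1) * H + H / k := ⟨_, rfl⟩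
  have hθ0 : 0 ≤ θ := by
    rw [hθ]
    exact div_nonneg (by linarith) (by linarith)
  rcases le_or_gt κ 0 with hκ0 | hκ0
  · refine ⟨∅, by simp, ?_, ?_⟩
    · rw [Light, Finset.sum_empty, ← hH, ← hA, ← hκ]
      exact hκ0
    · rw [Finset.sum_empty, ← hσ]
      have : 0 ≤ (θ + 1 / k) * lX := by positivity
      linarith
  have hκW : κ ≤ W := by
    refine le_trans ?_ hWA
    have h1 : (ρ + 1 / (k : ℝ)) * H ≤ ((q : ℝ) - m - 1) * H :=
      mul_le_mul_of_nonneg_right hρ hpos.le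
    have h2 : (ρ + 1 / (k : ℝ)) * H = ρ * H + H / k := by ring
    rw [hκ]
    linarith
  have hW0 : 0 < W := by linarith
  -- the ratio
  have hAle : A ≤ q * (H + Real.log (K2 L)) := by
    have : ∀ i ∈ (Finset.univ : Finset (Fin q)), Real.log (va L x i) ≤
        H + Real.log (K2 L) := by
      intro i _
      have := log_va_le h i
      rw [hH]
      linarith
    rw [hA]
    refine (Finset.sum_le_card_nsmul _ _ _ this).trans (le_of_eq ?_)
    rw [Finset.card_univ, Fintype.card_fin, nsmul_eq_mul]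
  have hqρ : (m : ℝ) + 1 + 1 / k ≤ (q : ℝ) - ρ := by linarith
  have hqρ0 : 0 < (q : ℝ) - ρ := by linarith
  have hratio : κ ≤ (θ + 1 / k) * W := by
    refine le_trans ?_ (mul_le_mul_of_nonneg_left hWA (by positivity))
    have e1 : θ * ((q : ℝ) - ρ) = m + 1 := by
      rw [hθ]; exact div_mul_cancel₀ _ hqρ0.ne'
    have e2 : (1 - (θ + 1 / k)) * A ≤ (1 - (θ + 1 / k)) * (q * (H + Real.log (K2 L))) :=
      mul_le_mul_of_nonneg_left hAle (by linarith)
    have e3 : (1 - (θ + 1 / k)) * (q * Real.log (K2 L)) ≤ q * Real.log (K2 L) := by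
      have : 0 ≤ q * Real.log (K2 L) :=
        mul_nonneg (Nat.cast_nonneg _) (Real.log_natCast_nonneg _)
      have h2 : 0 ≤ θ + 1 / k := by positivity
      nlinarith
    have e4 : q * Real.log (K2 L) ≤ H / k := by
      rw [le_div_iff₀ hk0]
      linarith
    have e7 : θ * (((q : ℝ) - ρ) * H) = (m + 1) * H := by rw [← mul_assoc, e1]
    rw [hκ]
    -- A (1 - c) ≤ ((q - m - 1) - 1/k - c ρ) H
    have e8 : (1 - (θ + 1 / k)) * (q * (H + Real.log (K2 L))) =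
      q * H - θ * (((q : ℝ) - ρ) * H) - θ * (ρ * H) - 1 / k * (((q : ℝ) - ρ) * H) -
        1 / k * (ρ * H) + (1 - (θ + 1 / k)) * (q * Real.log (K2 L)) := by ring
    rw [e8, e7] at e2
    have e9 : (θ + 1 / k) * (A - ρ * H) = A - (1 - (θ + 1 / k)) * A - θ * (ρ * H) -
      1 / k * (ρ * H) := by ring
    rw [e9]
    -- need 2 H / k ≤ (q - ρ) H / k
    have e10 : 2 * (H / k) ≤ 1 / k * (((q : ℝ) - ρ) * H) := by
      have h1 : (1 : ℝ) ≤ m := by exact_mod_cast hm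
      have h2 : (1 : ℝ) / k * (2 * H) ≤ 1 / k * (((q : ℝ) - ρ) * H) :=
        mul_le_mul_of_nonneg_left (mul_le_mul_of_nonneg_right (by linarith) hpos.le) h1k.le
      have h3 : (1 : ℝ) / k * (2 * H) = 2 * (H / k) := by ring
      linarith
    linarith
  obtain ⟨r, hr⟩ : ∃ r : ℕ → ℝ, r = fun p => if p ∈ S0 then 0 else Real.log (p : ℝ) := ⟨_, rfl⟩
  have hrQ : ∑ p ∈ Q, r p ≤ lX := by
    have h1 : ∑ p ∈ Q, r p = ∑ p ∈ Q \ S0, Real.log (p : ℝ) := by
      rw [hr]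
      simp only
      rw [Finset.sum_ite, Finset.sum_const_zero, zero_add]
      congr 1
      ext p
      simp only [Finset.mem_filter, Finset.mem_sdiff]
    rw [h1, hQ]
    exact hrad
  have hr0 : ∀ p, 0 ≤ r p := fun p => by
    rw [hr]
    simp only
    split_ifs
    · exact le_rfl
    · exact Real.log_natCast_nonneg p
  have hrM : ∀ p ∈ Q, r p ≤ ly := by
    intro p hp
    rw [hyy]
    refine le_min ?_ ((Finset.single_le_sum (fun p _ => hr0 p) hp).trans hrQ)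
    rw [hr]
    simp only
    split_ifs
    · exact Real.log_nonneg hy
    · rw [hQ] at hp
      have hp2 := (Finset.mem_filter.1 hp)
      exact Real.log_le_log (by
        exact_mod_cast (Nat.prime_of_mem_primeFactors hp2.1).pos) hp2.2
  obtain ⟨T, hT, hTw, hTc⟩ := greedy w r (κ := κ) (ρ := lX / W) (M := ly) hκ0.le
    (by positivity) hly Q hrM (by rw [← hW, div_mul_cancel₀ _ hW0.ne']; exact hrQ)
    (by rw [← hW]; exact hκW)
  refine ⟨T, fun p hp => hQp p (hT hp), ?_, ?_⟩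
  · rw [Light, ← hH, ← hA, ← hκ]
    have : ∑ p ∈ T, ∑ i, (fv L x i p : ℝ) * Real.log p = ∑ p ∈ T, w p := by rw [hw]
    rw [this]
    exact hTw
  · have h1 : ∑ p ∈ T, Real.log (p : ℝ) ≤ ∑ p ∈ T, r p + σ := by
      have h2 : ∑ p ∈ T, Real.log (p : ℝ) =
          ∑ p ∈ T \ S0, Real.log (p : ℝ) + ∑ p ∈ T ∩ S0, Real.log (p : ℝ) := by
        rw [add_comm, Finset.sum_inter_add_sum_sdiff]
      have h3 : ∑ p ∈ T, r p = ∑ p ∈ T \ S0, Real.log (p : ℝ) := by
        rw [hr]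
        simp only
        rw [Finset.sum_ite, Finset.sum_const_zero, zero_add]
        congr 1
        ext p
        simp only [Finset.mem_filter, Finset.mem_sdiff]
      have h4 : ∑ p ∈ T ∩ S0, Real.log (p : ℝ) ≤ σ := by
        rw [hσ]
        exact Finset.sum_le_sum_of_subset_of_nonneg Finset.inter_subset_right
          fun p _ _ => Real.log_natCast_nonneg p
      rw [h2, h3]
      linarith
    have h2 : lX / W * κ ≤ (θ + 1 / k) * lX := by
      rw [div_mul_eq_mul_div, div_le_iff₀ hW0]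
      calc lX * κ ≤ lX * ((θ + 1 / k) * W) := mul_le_mul_of_nonneg_left hratio hlX
        _ = _ := by ring
    rw [← hσ]
    linarith

/-- **points with small truncated counting function lie in few hyperplanes** -/
theorem main_planes (hm : 1 ≤ m) {L : Fin q → Fin (m + 1) → ℤ} (hL : Gp L) {ρ ε : ℝ}
    (hρ0 : 0 ≤ ρ) (hρ : ρ < (q : ℝ) - m - 1) (S0 : Finset ℕ) (hε : 0 < ε) :
    ∃ D : ℝ, 0 < D ∧ ∀ X y H : ℝ, 1 ≤ X → 1 ≤ y → 1 ≤ H →
    ∃ V : Finset (Fin (m + 1) → ℤ), (∀ v ∈ V, v ≠ 0) ∧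
      (V.card : ℝ) ≤ D * y * X ^ (((m : ℝ) + 1) / ((q : ℝ) - ρ) + ε) * (1 + Real.log H) ∧
      ∀ x, Pt L x → Real.log (ht x) ≤ H →
        ∑ p ∈ ((Np L x).primeFactors.filter (fun p : ℕ => (p : ℝ) ≤ y)) \ S0,
          Real.log (p : ℝ) ≤ Real.log X →
        ∑ p ∈ (Np L x).primeFactors.filter (fun p : ℕ => ¬ (p : ℝ) ≤ y),
          ∑ i, (fv L x i p : ℝ) * Real.log p ≤ ρ * Real.log (ht x) →
        ∃ v ∈ V, ∑ j, v j * x j = 0 := by
  classical
  have hm0 : (0 : ℝ) ≤ m := Nat.cast_nonneg _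
  have hq : m + 1 ≤ q := by
    have : (m : ℝ) + 1 < q := by linarith
    exact_mod_cast this.le
  obtain ⟨θ, hθ⟩ : ∃ θ : ℝ, θ = ((m : ℝ) + 1) / ((q : ℝ) - ρ) := ⟨_, rfl⟩
  have hqρ : (m : ℝ) + 1 < (q : ℝ) - ρ := by linarith
  have hqρ0 : 0 < (q : ℝ) - ρ := by linarith
  have hθ0 : 0 < θ := by rw [hθ]; positivity
  have hθ1 : θ < 1 := by rw [hθ, div_lt_one hqρ0]; exact hqρ
  obtain ⟨k, hk⟩ : ∃ k : ℕ, 8 / ε + 1 / (1 - θ) + 1 / ((q : ℝ) - m - 1 - ρ) ≤ k :=
    exists_nat_ge _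
  have hp1 : 0 < 8 / ε := by positivity
  have hp2 : 0 < 1 / (1 - θ) := by
    have : 0 < 1 - θ := by linarith
    positivity
  have hp3 : 0 < 1 / ((q : ℝ) - m - 1 - ρ) := by
    have : 0 < (q : ℝ) - m - 1 - ρ := by linarith
    positivity
  have hk0 : (0 : ℝ) < k := by linarith
  have hk1 : 1 ≤ k := by
    have : 0 < k := by exact_mod_cast hk0
    omega
  have hk1' : (1 : ℝ) ≤ k := by exact_mod_cast hk1
  have h1k : 0 < 1 / (k : ℝ) := by positivity
  have h1k1 : 1 / (k : ℝ) ≤ 1 := by rw [div_le_one hk0]; exact hk1'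
  have hkε : 8 / (k : ℝ) ≤ ε := by
    have : 8 / ε ≤ k := by linarith
    rw [div_le_iff₀ hε] at this
    rw [div_le_iff₀ hk0]
    linarith
  have hkθ : θ + 1 / k ≤ 1 := by
    have h1 : 1 / (1 - θ) ≤ k := by linarith
    rw [div_le_iff₀ (by linarith)] at h1
    have h2 : 1 / (k : ℝ) ≤ 1 - θ := by
      rw [div_le_iff₀ hk0]
      linarith
    linarith
  have hkρ : ρ + 1 / (k : ℝ) ≤ (q : ℝ) - m - 1 := by
    have h1 : 1 / ((q : ℝ) - m - 1 - ρ) ≤ k := by linarith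
    rw [div_le_iff₀ (by linarith)] at h1
    have h2 : 1 / (k : ℝ) ≤ (q : ℝ) - m - 1 - ρ := by
      rw [div_le_iff₀ hk0]
      linarith
    linarith
  obtain ⟨l1, hl1⟩ : ∃ l1 : ℝ, l1 = l0 L k + (k : ℝ) * q * Real.log (K2 L) := ⟨_, rfl⟩
  have hK2 : 0 ≤ Real.log (K2 L) := Real.log_natCast_nonneg _
  have hqn : (0 : ℝ) ≤ q := Nat.cast_nonneg _
  have hkq : 0 ≤ (k : ℝ) * q * Real.log (K2 L) := by positivity
  obtain ⟨D, hD, htot⟩ := total hL hq hm hk1 (l1 := l1) (by rw [hl1]; linarith)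
  obtain ⟨σ, hσ⟩ : ∃ σ, σ = ∑ p ∈ S0, Real.log (p : ℝ) := ⟨_, rfl⟩
  have hσ0 : 0 ≤ σ := by rw [hσ]; exact Finset.sum_nonneg fun p _ => Real.log_natCast_nonneg p
  have hes : 1 ≤ Real.exp σ := Real.one_le_exp hσ0
  refine ⟨D * Real.exp σ ^ (2 : ℝ), by positivity, fun X y H hX hy hH => ?_⟩
  have hX0 : 0 < X := by linarith
  have hy0 : 0 < y := by linarith
  have hlX : 0 ≤ Real.log X := Real.log_nonneg hX
  have hlH : 0 ≤ Real.log H := Real.log_nonneg hH
  obtain ⟨y', hy'⟩ : ∃ y', y' = min y X := ⟨_, rfl⟩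
  have hy1 : 1 ≤ y' := by rw [hy']; exact le_min hy hX
  have hy0' : 0 < y' := by linarith
  have hyy : y' ≤ y := by rw [hy']; exact min_le_left _ _
  have hyX : y' ≤ X := by rw [hy']; exact min_le_right _ _
  have hly : Real.log y' = min (Real.log y) (Real.log X) := by
    rw [hy']
    rcases le_total y X with h | h
    · rw [min_eq_left h, min_eq_left (Real.log_le_log hy0 h)]
    · rw [min_eq_right h, min_eq_right (Real.log_le_log hX0 h)]
  obtain ⟨M, hMe⟩ : ∃ M, M = Real.exp σ * X ^ (θ + 1 / (k : ℝ)) * y' := ⟨_, rfl⟩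
  have hXp : 1 ≤ X ^ (θ + 1 / (k : ℝ)) := Real.one_le_rpow hX (by positivity)
  have hM : 1 ≤ M := by
    rw [hMe]
    exact one_le_mul_of_one_le_of_one_le (one_le_mul_of_one_le_of_one_le hes hXp) hy1
  obtain ⟨V, hV0, hVc, hV⟩ := htot M H hM hH
  refine ⟨V, hV0, ?_, ?_⟩
  · have hMk : M ^ (1 + 1 / (k : ℝ)) ≤ Real.exp σ ^ (2 : ℝ) * (y * X ^ (θ + ε)) := by
      have e0 : M ^ (1 + 1 / (k : ℝ)) = M * M ^ (1 / (k : ℝ)) := by
        rw [Real.rpow_add (by linarith), Real.rpow_one]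
      have e1 : M ≤ Real.exp σ * X ^ (3 : ℝ) := by
        rw [hMe, mul_assoc]
        refine mul_le_mul_of_nonneg_left ?_ (by positivity)
        calc X ^ (θ + 1 / (k : ℝ)) * y' ≤ X ^ (2 : ℝ) * X :=
              mul_le_mul (Real.rpow_le_rpow_of_exponent_le hX (by linarith)) hyX hy0'.le
                (by positivity)
          _ = X ^ (3 : ℝ) := by
              rw [← Real.rpow_add_one hX0.ne']
              norm_num
      have e3 : M ^ (1 / (k : ℝ)) ≤ Real.exp σ * X ^ (3 / (k : ℝ)) := by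
        calc M ^ (1 / (k : ℝ)) ≤ (Real.exp σ * X ^ (3 : ℝ)) ^ (1 / (k : ℝ)) :=
              Real.rpow_le_rpow (by linarith) e1 h1k.le
          _ = Real.exp σ ^ (1 / (k : ℝ)) * X ^ (3 / (k : ℝ)) := by
              rw [Real.mul_rpow (by positivity) (by positivity), ← Real.rpow_mul hX0.le]
              congr 2
              ring
          _ ≤ Real.exp σ * X ^ (3 / (k : ℝ)) := by
              refine mul_le_mul_of_nonneg_right ?_ (by positivity)
              calc Real.exp σ ^ (1 / (k : ℝ)) ≤ Real.exp σ ^ (1 : ℝ) :=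
                    Real.rpow_le_rpow_of_exponent_le hes h1k1
                _ = Real.exp σ := Real.rpow_one _
      rw [e0]
      calc M * M ^ (1 / (k : ℝ)) ≤ M * (Real.exp σ * X ^ (3 / (k : ℝ))) :=
            mul_le_mul_of_nonneg_left e3 (by linarith)
        _ = Real.exp σ ^ (2 : ℝ) * (y' * (X ^ (θ + 1 / (k : ℝ)) * X ^ (3 / (k : ℝ)))) := by
            rw [hMe, Real.rpow_two]
            ring
        _ = Real.exp σ ^ (2 : ℝ) * (y' * X ^ (θ + 1 / (k : ℝ) + 3 / (k : ℝ))) := by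
            rw [← Real.rpow_add hX0]
        _ ≤ Real.exp σ ^ (2 : ℝ) * (y * X ^ (θ + ε)) := by
            refine mul_le_mul_of_nonneg_left (mul_le_mul hyy
              (Real.rpow_le_rpow_of_exponent_le hX ?_) (by positivity) hy0.le) (by positivity)
            have e5 : 1 / (k : ℝ) = 1 / 8 * (8 / k) := by ring
            have e6 : 3 / (k : ℝ) = 3 / 8 * (8 / k) := by ring
            rw [e5, e6]
            linarith
    rw [← hθ]
    calc (V.card : ℝ) ≤ D * M ^ (1 + 1 / (k : ℝ)) * (1 + Real.log H) := hVc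
      _ ≤ D * (Real.exp σ ^ (2 : ℝ) * (y * X ^ (θ + ε))) * (1 + Real.log H) := by
          refine mul_le_mul_of_nonneg_right (mul_le_mul_of_nonneg_left hMk hD.le) (by linarith)
      _ = _ := by ring
  · intro x hx hxH hrad hro
    refine hV x hx hxH fun hbig => ?_
    have hl0 := l0_ge L k
    obtain ⟨S, hS, hLt, hc⟩ := choice hm hk1 (S0 := S0) hkρ hθ hkθ (Real.log_nonneg hy1) hlX hly hy
      hx (by linarith) (by linarith) hrad hro
    refine ⟨S, hS, hLt, ?_⟩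
    have hpos : 0 < ∏ p ∈ S, p := Finset.prod_pos fun p hp => (hS p hp).pos
    rw [hMe, ← Real.log_le_log_iff (by exact_mod_cast hpos) (by positivity),
      Real.log_mul (by positivity) hy0'.ne', Real.log_mul (by positivity) (by positivity),
      Real.log_exp, Real.log_rpow hX0, Pool.Agent.TH867.SR.log_prod_primes hS]
    linarith

end Pool.Agent.TH867.HP
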