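import Pool.Agent.TH867.HP.Cell
import Pool.Agent.TH867.SR.Tot

/-! The hyperplanes of all scales and all light sets (helper867). -/

set_option autoImplicit false

namespace Pool.Agent.TH867.HP

open Finset
open Pool.Agent.TH867.SR (sum_omega)

variable {m q : ℕ}

/-- a single point lies in a hyperplane -/
theorem single (hm : 1 ≤ m) (x : Fin (m + 1) → ℤ) :
    ∃ v : Fin (m + 1) → ℤ, v ≠ 0 ∧ ∑ j, v j * x j = 0 := by
  obtain ⟨v, h1, h2⟩ := hyperplane (m := m) {x} (fun y hy => by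
    unfold dt
    have h01 : (⟨0, by omega⟩ : Fin (m + 1)) ≠ ⟨1, by omega⟩ := by
      simp [Fin.ext_iff]
    refine Matrix.det_zero_of_row_eq h01 ?_
    have e0 : y ⟨0, by omega⟩ = x := hy _
    have e1 : y ⟨1, by omega⟩ = x := hy _
    show y ⟨0, by omega⟩ = y ⟨1, by omega⟩
    rw [e0, e1])
  exact ⟨v, h1, h2 x rfl⟩

/-- the threshold -/
noncomputable def l0 (L : Fin q → Fin (m + 1) → ℤ) (k : ℕ) : ℝ :=
  2 * k * CL L + 2 * k + Real.log (K2 L) + 1

theorem CL_nonneg (L : Fin q → Fin (m + 1) → ℤ) : 0 ≤ CL L := by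
  unfold CL
  have h1 := Real.log_natCast_nonneg (Dl L)
  have h2 := Real.log_natCast_nonneg ((m + 1).factorial)
  have h3 := Real.log_natCast_nonneg (K1 L)
  positivity

theorem l0_ge (L : Fin q → Fin (m + 1) → ℤ) (k : ℕ) : 1 ≤ l0 L k := by
  unfold l0
  have h1 := CL_nonneg L
  have h2 := Real.log_natCast_nonneg (K2 L)
  have h3 : 0 ≤ 2 * (k : ℝ) * CL L := by positivity
  have h4 : (0 : ℝ) ≤ k := Nat.cast_nonneg k
  linarith

theorem total {L : Fin q → Fin (m + 1) → ℤ} (hL : Gp L) (hq : m + 1 ≤ q) (hm : 1 ≤ m) {k : ℕ}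
    (hk : 1 ≤ k) {l1 : ℝ} (hl1 : l0 L k ≤ l1) : ∃ D : ℝ, 0 < D ∧ ∀ M H : ℝ, 1 ≤ M → 1 ≤ H →
    ∃ V : Finset (Fin (m + 1) → ℤ), (∀ v ∈ V, v ≠ 0) ∧
      (V.card : ℝ) ≤ D * M ^ (1 + 1 / (k : ℝ)) * (1 + Real.log H) ∧
      ∀ x, Pt L x → Real.log (ht x) ≤ H → (l1 ≤ Real.log (ht x) →
        ∃ S : Finset ℕ, (∀ p ∈ S, p.Prime) ∧ Light L k S x ∧ ((∏ p ∈ S, p : ℕ) : ℝ) ≤ M) →
        ∃ v ∈ V, ∑ j, v j * x j = 0 := by
  classical
  have hk0 : (0 : ℝ) < k := by exact_mod_cast hk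
  have hl0' := l0_ge L k
  have hl0 : 1 ≤ l1 := hl0'.trans hl1
  have hl0p : 0 < l1 := by linarith
  obtain ⟨D, hD, hsum⟩ := sum_omega ((2 : ℝ) ^ c0 m q k) (one_le_pow₀ (by norm_num))
    (1 / (k : ℝ)) (by positivity)
  -- small heights
  obtain ⟨N, hN⟩ : ∃ N, N = ⌊Real.exp (l1)⌋₊ := ⟨_, rfl⟩
  obtain ⟨W, hW⟩ : ∃ W : Finset (Fin (m + 1) → ℤ),
      W = Fintype.piFinset fun _ => Finset.Icc (-(N : ℤ)) N := ⟨_, rfl⟩
  have hsing := fun x : Fin (m + 1) → ℤ => single hm x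
  choose w hw0 hw using hsing
  obtain ⟨D0, hD0⟩ : ∃ D0 : ℝ, D0 = (W.card : ℝ) := ⟨_, rfl⟩
  have hD0' : 0 ≤ D0 := by rw [hD0]; exact Nat.cast_nonneg _
  have hlog2 : 0 < Real.log 2 := Real.log_pos (by norm_num)
  refine ⟨D0 + 2 ^ c0 m q k * D * (1 + 1 / Real.log 2), by positivity, fun M H hM hH => ?_⟩
  have hlH : 0 ≤ Real.log H := Real.log_nonneg hH
  have hMp : 1 ≤ M ^ (1 + 1 / (k : ℝ)) := Real.one_le_rpow hM (by positivity)
  -- the number of scales
  obtain ⟨J, hJ⟩ : ∃ J : ℕ, J = ⌊Real.log H / Real.log 2⌋₊ := ⟨_, rfl⟩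
  have hJle : (J : ℝ) ≤ Real.log H / Real.log 2 := by
    rw [hJ]
    exact Nat.floor_le (div_nonneg hlH hlog2.le)
  have hpl : ∀ (j n : ℕ), ∃ V : Finset (Fin (m + 1) → ℤ), (∀ v ∈ V, v ≠ 0) ∧
      V.card ≤ 2 ^ (c0 m q k * (n.primeFactors.card + 1)) ∧
      ∀ x, Pt L x → l1 * 2 ^ j ≤ Real.log (ht x) →
        Real.log (ht x) ≤ 2 * (l1 * 2 ^ j) → Light L k n.primeFactors x →
        ∃ v ∈ V, ∑ i, v i * x i = 0 := by
    intro j n
    refine planes hL hq hk (fun p hp => Nat.prime_of_mem_primeFactors hp) ?_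
    have h1 : (1 : ℝ) ≤ 2 ^ j := one_le_pow₀ (by norm_num)
    have h2 : l1 * 1 ≤ l1 * 2 ^ j := mul_le_mul_of_nonneg_left h1 hl0p.le
    have h3 : l0 L k = 2 * k * CL L + 2 * k + Real.log (K2 L) + 1 := rfl
    linarith
  choose V hV0 hVc hV using hpl
  obtain ⟨T, hT⟩ : ∃ T : Finset (Fin (m + 1) → ℤ), T = (Finset.range (J + 1)).biUnion
      (fun j => (Finset.Icc 1 ⌊M⌋₊).biUnion fun n => V j n) := ⟨_, rfl⟩
  refine ⟨W.image w ∪ T, ?_, ?_, ?_⟩
  · intro v hv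
    rcases Finset.mem_union.1 hv with h1 | h1
    · obtain ⟨x, _, rfl⟩ := Finset.mem_image.1 h1
      exact hw0 x
    · rw [hT, Finset.mem_biUnion] at h1
      obtain ⟨j, _, h1⟩ := h1
      rw [Finset.mem_biUnion] at h1
      obtain ⟨n, _, h1⟩ := h1
      exact hV0 j n v h1
  · have h1 : T.card ≤ (J + 1) * ∑ n ∈ Finset.Icc 1 ⌊M⌋₊,
        2 ^ (c0 m q k * (n.primeFactors.card + 1)) := by
      rw [hT]
      refine Finset.card_biUnion_le.trans ?_
      calc ∑ j ∈ Finset.range (J + 1), ((Finset.Icc 1 ⌊M⌋₊).biUnion fun n => V j n).card ≤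
          ∑ _j ∈ Finset.range (J + 1), ∑ n ∈ Finset.Icc 1 ⌊M⌋₊,
            2 ^ (c0 m q k * (n.primeFactors.card + 1)) :=
            Finset.sum_le_sum fun j _ => Finset.card_biUnion_le.trans
              (Finset.sum_le_sum fun n _ => hVc j n)
        _ = _ := by rw [Finset.sum_const, Finset.card_range, smul_eq_mul]
    have h2 : (T.card : ℝ) ≤ ((J : ℝ) + 1) * ∑ n ∈ Finset.Icc 1 ⌊M⌋₊,
        (2 : ℝ) ^ c0 m q k * ((2 : ℝ) ^ c0 m q k) ^ n.primeFactors.card := by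
      have h3 : (T.card : ℝ) ≤ (((J + 1) * ∑ n ∈ Finset.Icc 1 ⌊M⌋₊,
        2 ^ (c0 m q k * (n.primeFactors.card + 1)) : ℕ) : ℝ) := by exact_mod_cast h1
      refine h3.trans (le_of_eq ?_)
      push_cast
      congr 1
      refine Finset.sum_congr rfl fun n _ => ?_
      rw [pow_mul, pow_succ]
      ring
    rw [← Finset.mul_sum] at h2
    have h4 : ∑ n ∈ Finset.Icc 1 ⌊M⌋₊, ((2 : ℝ) ^ c0 m q k) ^ n.primeFactors.card ≤
        D * M ^ (1 + 1 / (k : ℝ)) := by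
      refine (hsum ⌊M⌋₊).trans (mul_le_mul_of_nonneg_left ?_ hD.le)
      exact Real.rpow_le_rpow (Nat.cast_nonneg _) (Nat.floor_le (by linarith)) (by positivity)
    have h5 : (J : ℝ) + 1 ≤ (1 + 1 / Real.log 2) * (1 + Real.log H) := by
      have e1 : (1 + 1 / Real.log 2) * (1 + Real.log H) =
        1 + Real.log H + 1 / Real.log 2 + Real.log H / Real.log 2 := by ring
      have e2 : 0 < 1 / Real.log 2 := by positivity
      rw [e1]
      linarith
    have h6 : (T.card : ℝ) ≤ 2 ^ c0 m q k * D * (1 + 1 / Real.log 2) *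
        (M ^ (1 + 1 / (k : ℝ)) * (1 + Real.log H)) := by
      calc (T.card : ℝ) ≤ ((J : ℝ) + 1) * ((2 : ℝ) ^ c0 m q k *
            ∑ n ∈ Finset.Icc 1 ⌊M⌋₊, ((2 : ℝ) ^ c0 m q k) ^ n.primeFactors.card) := h2
        _ ≤ ((1 + 1 / Real.log 2) * (1 + Real.log H)) * ((2 : ℝ) ^ c0 m q k *
            (D * M ^ (1 + 1 / (k : ℝ)))) :=
            mul_le_mul h5 (mul_le_mul_of_nonneg_left h4 (by positivity)) (by positivity)
              (by positivity)
        _ = _ := by ring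
    have h7 : ((W.image w ∪ T).card : ℝ) ≤ D0 + T.card := by
      have := (Finset.card_union_le (W.image w) T).trans
        (Nat.add_le_add_right Finset.card_image_le _)
      rw [hD0]
      exact_mod_cast this
    have h8 : D0 ≤ D0 * (M ^ (1 + 1 / (k : ℝ)) * (1 + Real.log H)) := by
      refine le_mul_of_one_le_right hD0' ?_
      exact one_le_mul_of_one_le_of_one_le hMp (by linarith)
    calc ((W.image w ∪ T).card : ℝ) ≤ D0 + T.card := h7
      _ ≤ D0 * (M ^ (1 + 1 / (k : ℝ)) * (1 + Real.log H)) +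
          2 ^ c0 m q k * D * (1 + 1 / Real.log 2) *
            (M ^ (1 + 1 / (k : ℝ)) * (1 + Real.log H)) := by linarith
      _ = _ := by ring
  · intro x hx hxH hxL
    rcases lt_or_ge (Real.log (ht x)) (l1) with hsm | hbig
    · refine ⟨w x, Finset.mem_union_left _ (Finset.mem_image.2 ⟨x, ?_, rfl⟩), hw x⟩
      rw [hW, Fintype.mem_piFinset]
      intro j
      have h1 : ht x ≤ N := by
        rw [hN]
        refine Nat.le_floor ?_
        rw [← Real.log_le_iff_le_exp (by exact_mod_cast ht_pos hx)]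
        exact hsm.le
      have h2 := le_ht x j
      rw [Finset.mem_Icc]
      omega
    · obtain ⟨S, hS, hLt, hM2⟩ := hxL hbig
      obtain ⟨j, hj1, hj2⟩ := exists_nat_pow_near (x := Real.log (ht x) / l1) (y := 2)
        (by rw [le_div_iff₀ hl0p]; linarith) (by norm_num)
      rw [le_div_iff₀ hl0p] at hj1
      rw [div_lt_iff₀ hl0p, pow_succ] at hj2
      have hpf : (∏ p ∈ S, p).primeFactors = S := Nat.primeFactors_prod hS
      obtain ⟨v, hv1, hv2⟩ := hV j (∏ p ∈ S, p) x hx (by linarith) (by linarith)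
        (by rw [hpf]; exact hLt)
      refine ⟨v, Finset.mem_union_right _ ?_, hv2⟩
      rw [hT, Finset.mem_biUnion]
      refine ⟨j, ?_, ?_⟩
      · rw [Finset.mem_range, hJ]
        refine Nat.lt_succ_of_le (Nat.le_floor ?_)
        rw [le_div_iff₀ hlog2, ← Real.log_pow]
        refine Real.log_le_log (by positivity) ?_
        have h1 : (2 : ℝ) ^ j * 1 ≤ 2 ^ j * l1 :=
          mul_le_mul_of_nonneg_left hl0 (by positivity)
        linarith
      · rw [Finset.mem_biUnion]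
        exact ⟨∏ p ∈ S, p, Finset.mem_Icc.2 ⟨Finset.prod_pos fun p hp => (hS p hp).pos,
          Nat.le_floor hM2⟩, hv1⟩

end Pool.Agent.TH867.HP
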